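import Pool.Agent.W331.CR.All

/-!
# MP_02cf79_al: finitely generated `C^{k,Lip}` groups which are not `C^{k+1}` groups

Full (positive) answer to Q1 for `M = [0,1]` and `M = S^1` and every `k ≥ 1`, by one group for both
manifolds, with an element which is killed by every homomorphism into the `C^{k+1}` diffeomorphisms of
the interval or of the circle. The definitions `DiffI`, `DiffS` (with `ext01`, `IsLift`) and `LipI`,
`LipS` are in `Pool/Agent/W331/CR/Defs.lean` and `Stm2.lean`.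
-/

set_option autoImplicit false

namespace Pool.Agent.Results.MP_02cf79_al.LipschitzNotSmoother

open Set Function
open scoped ContDiff
open Pool.Agent.W331.CR

lemma kill {Γ H : Type} [Group Γ] [Group H] {k : ℕ} {t v h y f : Γ} (R : Rel02 k t v h y f)
    (hno : ∀ (G : Type) [Group G] (t v h y f : G), Rel02 k t v h y f → y ≠ 1 →
      ¬ ∃ φ : G →* H, Injective φ) (φ : Γ →* H) : φ y = 1 := by
  by_contra hy
  have R' := R.map φ.rangeRestrict
  refine hno φ.range _ _ _ _ _ R' ?_ ⟨φ.range.subtype, Subtype.coe_injective⟩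
  intro h
  apply hy
  have h1 := congrArg Subtype.val h
  simpa using h1

theorem no02S : S_no02S := s_no02S t_rigid02 s_liftcomm s_liftbs s_setupS

theorem no02I : S_no02I := s_no02I t_rigid02 s_setupI

theorem exist02 : S_exist02 := s_exist02 s_flataff s_conj s_conjlip s_f02

/-- For every `k ≥ 1` there are a finitely generated group `G` of orientation preserving `C^{k,Lip}`
diffeomorphisms of `[0,1]` and a finitely generated group `G'` of orientation preserving `C^{k,Lip}`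
diffeomorphisms of the circle, isomorphic to each other, and an element `g ≠ 1` of `G`, such that every
homomorphism from `G` to the group of orientation preserving `C^{k+1}` diffeomorphisms of `[0,1]` or of
the circle kills `g`. In particular neither `G` nor `G'` embeds into one of these two groups. -/
theorem result : ∀ k : ℕ, 1 ≤ k →
    ∃ (G : Subgroup (Icc (0:ℝ) 1 ≃o Icc (0:ℝ) 1)) (G' : Subgroup (Equiv.Perm (AddCircle (1:ℝ)))),
      G.FG ∧ (G : Set _) ⊆ LipI k ∧ G'.FG ∧ (G' : Set _) ⊆ LipS k ∧ Nonempty (G ≃* G') ∧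
      (∃ g : G, g ≠ 1 ∧ (∀ φ : G →* DiffI (k + 1 : ℕ), φ g = 1) ∧
        ∀ φ : G →* DiffS (k + 1 : ℕ), φ g = 1) ∧
      (¬ ∃ φ : G →* DiffI (k + 1 : ℕ), Injective φ) ∧
      ¬ ∃ φ : G' →* DiffS (k + 1 : ℕ), Injective φ := by
  intro k hk
  obtain ⟨t, v, h, y, f, R, hy1, hS⟩ := exist02 k hk
  set S : Set (ℝ ≃o ℝ) := {t, v, h, y, f} with hSdef
  have hcl := lipcs_closure s_lipmul k hk S hS
  have hsub : ∀ F ∈ S, F ∈ Sup := fun F hF => (hS F hF).1.1.1
  set T : Sup := ⟨t, hsub t (by simp [hSdef])⟩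
  set V : Sup := ⟨v, hsub v (by simp [hSdef])⟩
  set Hh : Sup := ⟨h, hsub h (by simp [hSdef])⟩
  set Y : Sup := ⟨y, hsub y (by simp [hSdef])⟩
  set Ff : Sup := ⟨f, hsub f (by simp [hSdef])⟩
  set N := Subgroup.closure ({T, V, Hh, Y, Ff} : Set Sup) with hN
  have hNS : ∀ F ∈ N, (F : ℝ ≃o ℝ) ∈ LipCS k ∧ ((F : ℝ ≃o ℝ)⁻¹ : ℝ ≃o ℝ) ∈ LipCS k := by
    intro F hF
    apply hcl
    have h6 : Sup.subtype F ∈ N.map Sup.subtype := Subgroup.mem_map_of_mem _ hF
    rw [hN, MonoidHom.map_closure] at h6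
    refine Subgroup.closure_mono ?_ h6
    rintro _ ⟨Z, hZ, rfl⟩
    simp only [mem_insert_iff, mem_singleton_iff] at hZ
    rcases hZ with rfl | rfl | rfl | rfl | rfl <;> simp [hSdef, T, V, Hh, Y, Ff]
  have hfin : ({T, V, Hh, Y, Ff} : Set Sup).Finite := by
    simp
  obtain ⟨φ, hφ, hφ2⟩ := s_toI
  obtain ⟨ψ, hψ, hψ2⟩ := s_toS
  have e1 : N ≃* N.map φ := N.equivMapOfInjective φ hφ
  have e2 : N ≃* N.map ψ := N.equivMapOfInjective ψ hψ
  -- the element
  have hkill : ∃ g : N.map φ, g ≠ 1 ∧ (∀ χ : N.map φ →* DiffI (k + 1 : ℕ), χ g = 1) ∧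
      ∀ χ : N.map φ →* DiffS (k + 1 : ℕ), χ g = 1 := by
    obtain ⟨t', v', h', y', f', R', hy'⟩ := rel02_image φ hφ (T := T) (V := V) (Hh := Hh)
        (Y := Y) (Ff := Ff) R hy1
    exact ⟨y', hy', fun χ => kill R' (fun G _ t v h y f => no02I k hk G t v h y f) χ,
      fun χ => kill R' (fun G _ t v h y f => no02S k hk G t v h y f) χ⟩
  refine ⟨N.map φ, N.map ψ, fg_map_closure φ _ hfin, ?_, fg_map_closure ψ _ hfin, ?_,
    ⟨e1.symm.trans e2⟩, hkill, ?_, ?_⟩
  · rintro _ ⟨F, hF, rfl⟩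
    have hext : ∀ (F : Sup), ∀ x ∈ Icc (0:ℝ) 1, ext01 (φ F) x = (F : ℝ ≃o ℝ) x := by
      intro F x hx
      rw [← hφ2 F ⟨x, hx⟩]
      exact ext01_coe (φ F) ⟨x, hx⟩
    obtain ⟨⟨⟨g1, g2, g3⟩, K, hK⟩, -⟩ := hNS F hF
    refine ⟨⟨?_, ?_⟩, K, ?_⟩
    · exact g2.contDiffOn.congr (hext F)
    · rw [← map_inv]
      exact ContDiffOn.congr (f := ((F : ℝ ≃o ℝ)⁻¹ : ℝ ≃o ℝ)) g3.contDiffOn (hext F⁻¹)
    · have e : EqOn (iteratedDerivWithin k (ext01 (φ F)) (Icc 0 1))
          (iteratedDeriv k (F : ℝ ≃o ℝ)) (Icc 0 1) := by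
        intro x hx
        rw [iteratedDerivWithin_congr (hext F) hx]
        exact iteratedDerivWithin_eq_iteratedDeriv (uniqueDiffOn_Icc zero_lt_one)
          g2.contDiffAt hx
      intro a ha b hb
      rw [e ha, e hb]
      exact hK a b
  · rintro _ ⟨F, hF, rfl⟩
    obtain ⟨P, p1, p2, p3, p4, p5⟩ := hψ2 F
    obtain ⟨⟨⟨g1, g2, g3⟩, hK⟩, -⟩ := hNS F hF
    exact ⟨P, ⟨p1, p3 _ g2, p4 _ g3⟩, p5 k g2 hK, p2⟩
  · rintro ⟨χ, hχ⟩
    obtain ⟨g, hg, h1, -⟩ := hkill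
    exact hg (hχ (by rw [h1 χ, map_one]))
  · rintro ⟨χ, hχ⟩
    obtain ⟨g, hg, -, h1⟩ := hkill
    have h2 := h1 (χ.comp (e1.symm.trans e2).toMonoidHom)
    apply hg
    have h3 : χ ((e1.symm.trans e2) g) = χ 1 := by
      rw [map_one]; exact h2
    have h4 := hχ h3
    exact (e1.symm.trans e2).injective (by rw [h4, map_one])

end Pool.Agent.Results.MP_02cf79_al.LipschitzNotSmoother
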